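import Pool.Agent.H3.RCR.Util

/-!
# Project RCR, module A21: small spheres
-/

namespace Pool.Agent.H3.RCR.A21

open Relation

/-- if the two faces at the edge `u v` have the same apex `w`, then `u` and `v` are the only
neighbours of `w` -/
theorem nb {F : Finset Tri} (hF : Sph F) {u v w : ℕ} (h1 : (w, u, v) ∈ F) (h2 : (w, v, u) ∈ F)
    {z : ℕ} (hz : Adj F w z) : z = u ∨ z = v := by
  have h := hF.link w u z ⟨v, h1⟩ hz
  induction h with
  | refl => exact Or.inl rfl
  | tail _ h ih =>
    rename_i p q hr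
    have hp : Adj F w p := ⟨_, h⟩
    rcases ih hp with rfl | rfl
    · right; exact hF.uniq _ _ _ _ h h1
    · left; exact hF.uniq _ _ _ _ h h2

theorem apex {F : Finset Tri} (hF : Sph F) {u v w : ℕ} (h1 : (u, v, w) ∈ F) (h2 : (v, u, w) ∈ F) :
    verts F ⊆ {u, v, w} := by
  have hP := hF.toPre
  intro z hz
  have hu : u ∈ verts F := mem_verts.2 ⟨_, _, h1⟩
  have h := hF.conn u z hu hz
  induction h with
  | refl => simp
  | tail _ h ih =>
    rename_i p q hr
    have hp : p ∈ verts F := Pre.mem_left h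
    have := ih hp
    simp only [Finset.mem_insert, Finset.mem_singleton] at this ⊢
    rcases this with rfl | rfl | rfl
    · rcases nb hF h1 (hP.rot _ _ _ h2) h with rfl | rfl <;> simp
    · rcases nb hF (hP.rot _ _ _ h1) h2 h with rfl | rfl <;> simp
    · rcases nb hF (hP.rot2 h1) (hP.rot2 h2) h with rfl | rfl <;> simp

theorem a21 : A21Stmt := by
  intro F hF
  have hP := hF.toPre
  refine ⟨?_, ?_⟩
  · rintro h4 u v w ⟨h1, h2⟩
    have := Finset.card_le_card (apex hF h1 h2)
    have h3 : Finset.card ({u, v, w} : Finset ℕ) ≤ 3 := Finset.card_le_three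
    omega
  · intro h4 a b c habc
    obtain ⟨hab, hbc, hca⟩ := hP.nd habc
    have hV : verts F = {a, b, c} := by
      symm
      apply Finset.eq_of_subset_of_card_le
      · intro x hx
        simp only [Finset.mem_insert, Finset.mem_singleton] at hx
        rcases hx with rfl | rfl | rfl
        · exact mem_verts.2 ⟨_, _, habc⟩
        · exact mem_verts.2 ⟨_, _, hP.rot _ _ _ habc⟩
        · exact mem_verts.2 ⟨_, _, hP.rot2 habc⟩
      · have : Finset.card ({a, b, c} : Finset ℕ) = 3 :=
          Finset.card_eq_three.2 ⟨a, b, c, hab, hca.symm, hbc, rfl⟩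
        omega
    have hmem : ∀ x y z, (x, y, z) ∈ F → (x = a ∨ x = b ∨ x = c) ∧ (y = a ∨ y = b ∨ y = c) ∧
        (z = a ∨ z = b ∨ z = c) := by
      intro x y z h
      have hx : x ∈ verts F := mem_verts.2 ⟨_, _, h⟩
      have hy : y ∈ verts F := mem_verts.2 ⟨_, _, hP.rot _ _ _ h⟩
      have hz : z ∈ verts F := mem_verts.2 ⟨_, _, hP.rot2 h⟩
      rw [hV] at hx hy hz
      simp only [Finset.mem_insert, Finset.mem_singleton] at hx hy hz
      exact ⟨hx, hy, hz⟩
    obtain ⟨d, hd⟩ := hP.opp _ _ _ habc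
    have hdc : d = c := by
      obtain ⟨-, -, h⟩ := hmem _ _ _ hd
      obtain ⟨-, h2, h3⟩ := hP.nd hd
      rcases h with rfl | rfl | rfl
      · exact absurd rfl h2
      · exact absurd rfl h3
      · rfl
    subst hdc
    ext ⟨x, y, z⟩
    constructor
    · intro h
      obtain ⟨hx, hy, hz⟩ := hmem _ _ _ h
      obtain ⟨n1, n2, n3⟩ := hP.nd h
      simp only [Finset.mem_union, mem_rots, Prod.mk.injEq]
      rcases hx with rfl | rfl | rfl <;> rcases hy with rfl | rfl | rfl <;>
        rcases hz with rfl | rfl | rfl <;> simp_all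
    · intro h
      rcases Finset.mem_union.1 h with h | h
      · exact rotC_rots_subset hP.rot habc h
      · exact rotC_rots_subset hP.rot (hP.rot _ _ _ hd) h

end Pool.Agent.H3.RCR.A21
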