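import Pool.Agent.H65.RCR.Jump
import Pool.Agent.H59.RCR.A4

/-!
# Project RCR, module A13: one side of a 3-cycle with a collapsed edge is degenerate
-/

namespace Pool.Agent.H3.RCR.A13

open Finset

/-- the sum of an antisymmetric function vanishes over degenerate triangles -/
theorem sum_deg {S : Finset Tri} (hS : RotC S) (f : ℕ → ℕ) (ψ : ℕ → ℕ → ℤ)
    (hψ : ∀ a b, ψ a b = - ψ b a) :
    ∑ t ∈ S with ¬ Nd (mapT f t), ψ (f t.1) (f t.2.1) = 0 := by
  have hrot : RotC (S.filter fun t => ¬ Nd (mapT f t)) := by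
    intro a b c h
    rw [mem_filter] at h ⊢
    refine ⟨hS _ _ _ h.1, fun h' => h.2 ?_⟩
    obtain ⟨h1, h2, h3⟩ := h'
    exact ⟨h3, h1, h2⟩
  have h3 := A20.three_sum hrot (fun a b => ψ (f a) (f b))
  have h0 : ∑ t ∈ S with ¬ Nd (mapT f t), (ψ (f t.1) (f t.2.1) + ψ (f t.2.1) (f t.2.2) +
      ψ (f t.2.2) (f t.1)) = 0 := by
    apply sum_eq_zero
    rintro ⟨a, b, c⟩ h
    have hn := (mem_filter.1 h).2
    simp only [Nd, mapT] at hn ⊢
    have hz : ∀ p, ψ p p = 0 := fun p => by have := hψ p p; omega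
    have h1 := hψ (f a) (f b)
    have h2 := hψ (f b) (f c)
    have h3 := hψ (f c) (f a)
    by_cases e1 : f a = f b
    · rw [e1] at h1 h3 ⊢
      rw [hz]
      omega
    · by_cases e2 : f b = f c
      · rw [e2] at h1 h2 ⊢
        rw [hz]
        omega
      · by_cases e3 : f c = f a
        · rw [e3] at h2 h3 ⊢
          rw [hz]
          omega
        · exact absurd ⟨e1, e2, e3⟩ hn
  rw [h0] at h3
  omega

theorem a13 : A13Stmt := by
  classical
  intro f F G S a b w hF hG hD hS hab
  have hP := hF.toPre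
  have hPG := hG.toPre
  let P : Tri → Prop := fun s => ∃ t ∈ S, mapT f t = s
  have hrot : ∀ x y z, (x, y, z) ∈ G → P (x, y, z) → P (y, z, x) := by
    rintro x y z _ ⟨⟨p, q, r⟩, ht, he⟩
    simp only [mapT, Prod.mk.injEq] at he
    obtain ⟨rfl, rfl, rfl⟩ := he
    exact ⟨_, hS.rot _ _ _ ht, rfl⟩
  have hflip : ∀ x y z z', (x, y, z) ∈ G → (y, x, z') ∈ G → P (x, y, z) → P (y, x, z') := by
    intro x y z z' h1 h2 hp
    by_contra hq
    have hxy : x ≠ y := hPG.ne _ _ _ h1
    let ψ : ℕ → ℕ → ℤ := fun p q => (if p = x ∧ q = y then 1 else 0) -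
      (if p = y ∧ q = x then 1 else 0)
    have hψ : ∀ p q, ψ p q = - ψ q p := by
      intro p q
      simp only [ψ, and_comm (a := q = x), and_comm (a := q = y)]
      ring
    -- Stokes
    have s1 : ∑ t ∈ S, ψ (f t.1) (f t.2.1) = 0 := by
      have := A20.sum_jump hP hS.sub ({(a, b), (b, w), (w, a)} : Finset (ℕ × ℕ)) (by
        intro p q
        rw [hS.jump]
        simp only [mem_insert, mem_singleton, Prod.mk.injEq]) (fun p q => ψ (f p) (f q))
        (fun p q => hψ _ _)
      rw [this]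
      have n1 := hP.adj_ne hS.ab
      have n2 := hP.adj_ne hS.bc
      have n3 := hP.adj_ne hS.ca
      rw [sum_insert, sum_insert, sum_singleton]
      · simp only
        rw [hab, hψ (f w) (f b)]
        have := hψ (f b) (f b)
        omega
      · simp only [mem_singleton, Prod.mk.injEq]
        tauto
      · simp only [mem_insert, mem_singleton, Prod.mk.injEq]
        rintro (h | h)
        · exact n1 h.1
        · exact n3 h.1.symm
    rw [← sum_filter_add_sum_filter_not S (fun t => Nd (mapT f t)), sum_deg hS.rot f ψ hψ,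
      add_zero] at s1
    -- pointwise
    have key : ∀ t ∈ S.filter (fun t => Nd (mapT f t)), 0 ≤ ψ (f t.1) (f t.2.1) := by
      rintro ⟨p, q, r⟩ ht
      obtain ⟨ht, hnd⟩ := mem_filter.1 ht
      have hm := hD.face _ (hS.sub ht) hnd
      simp only [ψ]
      have : ¬ (f p = y ∧ f q = x) := by
        rintro ⟨e1, e2⟩
        have hm' : (y, x, f r) ∈ G := by
          rw [← e1, ← e2]; exact hm
        have := hPG.uniq _ _ _ _ hm' h2
        refine hq ⟨(p, q, r), ht, ?_⟩
        simp only [mapT]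
        rw [e1, e2, this]
      rw [if_neg this]
      split_ifs <;> simp
    obtain ⟨t, ht, he⟩ := hp
    have ht' : t ∈ S.filter (fun t => Nd (mapT f t)) := by
      refine mem_filter.2 ⟨ht, ?_⟩
      rw [he]
      obtain ⟨n1, n2, n3⟩ := hPG.nd h1
      exact ⟨n1, n2, n3⟩
    have hz := (sum_eq_zero_iff_of_nonneg key).1 s1 t ht'
    obtain ⟨p, q, r⟩ := t
    simp only [mapT, Prod.mk.injEq] at he
    obtain ⟨rfl, rfl, rfl⟩ := he
    have h5 : ψ (f p) (f q) = 1 := by
      simp only [ψ]
      rw [if_pos ⟨trivial, trivial⟩,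
        if_neg (show ¬ (f p = f q ∧ f q = f p) from fun h => hxy h.1)]
      rfl
    simp only at hz
    rw [h5] at hz
    exact one_ne_zero hz
  by_cases hex : ∃ s ∈ G, P s
  · right
    obtain ⟨s, hs, hPs⟩ := hex
    intro t ht hnd
    obtain ⟨htF, htS⟩ := mem_sdiff.1 ht
    have hm := hD.face _ htF hnd
    obtain ⟨t', ht', he⟩ := A4.a4 G hG P hrot hflip s hs _ hm hPs
    have := hD.uniq t' (hS.sub ht') t htF (by rw [he]; exact hm) he
    subst this
    exact htS ht'
  · left
    intro t ht hnd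
    exact hex ⟨_, hD.face _ (hS.sub ht) hnd, t, ht, rfl⟩

end Pool.Agent.H3.RCR.A13
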