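import Pool.Agent.H65.RCR.Jump

/-!
# Project RCR, module A20: Stokes
-/

namespace Pool.Agent.H3.RCR.A20

open Finset

theorem sum_zmod_range {M : Type} [AddCommGroup M] {m : ℕ} [NeZero m] (g : ZMod m → M) :
    ∑ i : ZMod m, g i = ∑ i ∈ range m, g (i : ZMod m) := by
  refine Finset.sum_nbij' (fun i => i.val) (fun n => (n : ZMod m)) ?_ ?_ ?_ ?_ ?_
  · intro i _
    exact mem_range.2 (ZMod.val_lt i)
  · intro n _
    exact mem_univ _
  · intro i _
    exact ZMod.natCast_zmod_val i
  · intro n hn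
    exact ZMod.val_cast_of_lt (mem_range.1 hn)
  · intro i _
    simp only [ZMod.natCast_zmod_val]

theorem a20 : A20Stmt := by
  classical
  intro M _ F S m c ψ hF hc hS hψ
  have : NeZero m := ⟨by have := hc.three; omega⟩
  rw [sum_jump hF hS.sub ((univ : Finset (ZMod m)).image (fun i => (c i, c (i + 1)))) ?_ ψ hψ,
    sum_image, sum_zmod_range]
  · intro i _ j _ h
    simp only [Prod.mk.injEq] at h
    exact hc.inj h.1
  · intro a b
    rw [hS.jump, mem_image]
    constructor
    · rintro ⟨i, _, h⟩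
      simp only [Prod.mk.injEq] at h
      exact ⟨i, h.1.symm, h.2.symm⟩
    · rintro ⟨i, rfl, rfl⟩
      exact ⟨i, mem_univ _, rfl⟩

end Pool.Agent.H3.RCR.A20
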