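import Pool.Agent.H3.RCR.Util

/-!
# Project RCR, module P6: inner vertices of a tight annulus have upper and lower neighbours
-/

namespace Pool.Agent.H3.RCR.P6

open Relation

theorem natCast_ne {b : ℕ} (hb : 4 ≤ b) {k : ℕ} (h0 : 0 < k) (h : k < b) : (k : ZMod b) ≠ 0 := by
  intro e
  rw [ZMod.natCast_eq_zero_iff] at e
  have := Nat.le_of_dvd h0 e
  omega

theorem one_ne {b : ℕ} (hb : 4 ≤ b) : (1 : ZMod b) ≠ 0 := by
  have := natCast_ne hb (k := 1) (by omega) (by omega)
  simpa using this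

theorem two_ne {b : ℕ} (hb : 4 ≤ b) : (2 : ZMod b) ≠ 0 := by
  have := natCast_ne hb (k := 2) (by omega) (by omega)
  simpa using this

theorem three_ne {b : ℕ} (hb : 4 ≤ b) : (3 : ZMod b) ≠ 0 := by
  have := natCast_ne hb (k := 3) (by omega) (by omega)
  simpa using this

section

variable {F D K : Finset Tri} {b N : ℕ} {C : ZMod b → ℕ} {θ : ℕ → ZMod b} {d : ℕ → ℤ}

theorem rotK (hA : Ann F b N C D K θ d) : RotC K := by
  obtain ⟨z, Z, -, hZ, -⟩ := hA.sideK
  exact hZ.rot

theorem subK (hA : Ann F b N C D K θ d) : K ⊆ F := by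
  obtain ⟨z, Z, -, hZ, -⟩ := hA.sideK
  exact hZ.sub

theorem rotA (hA : Ann F b N C D K θ d) : RotC (K \ D) := rotC_sdiff (rotK hA) hA.sideD.rot

/-- all faces at an inner vertex are in the annulus -/
theorem int_face {x p q : ℕ} (hx : IntV F D K x) (h : (x, p, q) ∈ F) : (x, p, q) ∈ K \ D := by
  rw [Finset.mem_sdiff]
  refine ⟨?_, fun h' => hx.2.1 (mem_verts.2 ⟨_, _, h'⟩)⟩
  by_contra h'
  exact hx.2.2 (mem_verts.2 ⟨_, _, Finset.mem_sdiff.2 ⟨h, h'⟩⟩)

theorem int_nb (hA : Ann F b N C D K θ d) {x y : ℕ} (hx : IntV F D K x) (h : Adj F x y) :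
    y ∈ verts (K \ D) := by
  obtain ⟨c, hc⟩ := h
  exact mem_verts.2 ⟨_, _, rotA hA _ _ _ (int_face hx hc)⟩

/-- a change of `θ` and `d` at an inner vertex -/
theorem ann_upd (hF : Pre F) (hA : Ann F b N C D K θ d) {x : ℕ} (hx : IntV F D K x) (τ : ZMod b)
    (e : ℤ) (hτ : ∀ y, Adj F x y → θ y = τ ∨ θ y = τ + 1 ∨ τ = θ y + 1)
    (he : ∀ y, Adj F x y → |d y - e| ≤ 1) :
    Ann F b N C D K (Function.update θ x τ) (Function.update d x e) := by
  obtain ⟨z, Z, hZc, hZs, hZd⟩ := hA.sideK
  have hKF : K ⊆ F := hZs.sub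
  have hCx : ∀ i, C i ≠ x := by
    intro i h
    have := (hA.sideD.jump (C i) (C (i - 1))).2 ⟨-i, by simp only [neg_neg], by
      simp only [neg_add_rev, neg_neg]
      congr 1
      ring⟩
    obtain ⟨⟨c, hc⟩, -⟩ := this
    apply hx.2.1
    rw [← h]
    exact mem_verts.2 ⟨_, _, hc⟩
  have hZx : ∀ i, Z i ≠ x := by
    intro i h
    have := (hZs.jump (Z (i + 1)) (Z i)).2 ⟨-(i + 1), by simp only [neg_neg], by
      simp only [neg_add_rev, neg_neg]
      congr 1
      ring⟩
    obtain ⟨-, c, hc, hc'⟩ := this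
    apply hx.2.2
    rw [← h]
    exact mem_verts.2 ⟨_, _, Finset.mem_sdiff.2 ⟨hc, hc'⟩⟩
  have hmem : ∀ {p q c : ℕ}, (p, q, c) ∈ K \ D → (p, q, c) ∈ F := fun h =>
    hKF (Finset.mem_sdiff.1 h).1
  constructor
  · exact hA.cyc
  · exact hA.sideD
  · exact hA.sub
  · exact ⟨z, Z, hZc, hZs, fun i => by rw [Function.update_of_ne (hZx i)]; exact hZd i⟩
  · intro i
    rw [Function.update_of_ne (hCx i)]
    exact hA.thC i
  · intro i
    rw [Function.update_of_ne (hCx i)]
    exact hA.dC i
  · intro p q c h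
    have hne := hF.ne _ _ _ (hmem h)
    by_cases h1 : p = x
    · subst h1
      rw [Function.update_self, Function.update_of_ne hne.symm]
      exact hτ q ⟨c, hmem h⟩
    · by_cases h2 : q = x
      · subst h2
        rw [Function.update_self, Function.update_of_ne hne]
        have := hτ p (hF.adj_symm ⟨c, hmem h⟩)
        rcases this with h | h | h
        · exact Or.inl h.symm
        · exact Or.inr (Or.inr h)
        · exact Or.inr (Or.inl h)
      · rw [Function.update_of_ne h1, Function.update_of_ne h2]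
        exact hA.thA _ _ _ h
  · intro p q c h
    have hne := hF.ne _ _ _ (hmem h)
    by_cases h1 : p = x
    · subst h1
      rw [Function.update_self, Function.update_of_ne hne.symm]
      exact he q ⟨c, hmem h⟩
    · by_cases h2 : q = x
      · subst h2
        rw [Function.update_self, Function.update_of_ne hne, abs_sub_comm]
        exact he p (hF.adj_symm ⟨c, hmem h⟩)
      · rw [Function.update_of_ne h1, Function.update_of_ne h2]
        exact hA.dA _ _ _ h
  · exact hA.chC
  · exact hA.chK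

theorem nb_side (hF : Sph F) (hb : 4 ≤ b) (hT : Tight F b N C D K θ d) {x : ℕ}
    (hx : IntV F D K x) (s : ℤ) (hs : s = 1 ∨ s = -1) : ∃ y, Adj F x y ∧ d y = d x + s := by
  have hP := hF.toPre
  have hA := hT.toAnn
  by_contra hno
  push Not at hno
  have vθ : ∀ y, Adj F x y → θ y = θ x ∨ θ y = θ x + 1 ∨ θ x = θ y + 1 := by
    rintro y ⟨c, hc⟩
    exact hA.thA _ _ _ (int_face hx hc)
  have vd : ∀ y, Adj F x y → |d y - d x| ≤ 1 := by
    rintro y ⟨c, hc⟩
    exact hA.dA _ _ _ (int_face hx hc)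
  have hd : ∀ y, Adj F x y → d y = d x ∨ d y = d x - s := by
    intro y hy
    have h1 := abs_le.1 (vd y hy)
    have h2 := hno y hy
    rcases hs with rfl | rfl <;> omega
  have vd' : ∀ y, Adj F x y → |d y - (d x - s)| ≤ 1 := by
    intro y hy
    have := hd y hy
    rw [abs_le]
    rcases hs with rfl | rfl <;> omega
  have dz' : ∀ (τ : ZMod b) (e : ℤ),
      (∀ y, Adj F x y → θ y = τ ∨ θ y = τ + 1 ∨ τ = θ y + 1) →
      (∀ y, Adj F x y → |d y - e| ≤ 1) → ∀ y, Adj F x y → ¬ (τ = θ y ∧ e = d y) := by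
    intro τ e h1 h2 y hy h
    have := hT.dz _ _ (ann_upd hP hA hx τ e h1 h2) x y hx hy
    rw [Function.update_self, Function.update_self, Function.update_of_ne (hP.adj_ne hy).symm,
      Function.update_of_ne (hP.adj_ne hy).symm] at this
    exact this h
  have hne : ∀ y, Adj F x y → θ y = θ x + 1 ∨ θ y = θ x + -1 := by
    intro y hy
    have h1 := dz' (θ x) (d x) vθ vd y hy
    have h2 := dz' (θ x) (d x - s) vθ vd' y hy
    rcases vθ y hy with h | h | h
    · rcases hd y hy with h' | h'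
      · exact absurd ⟨h.symm, h'.symm⟩ h1
      · exact absurd ⟨h.symm, h'.symm⟩ h2
    · exact Or.inl h
    · exact Or.inr (by rw [h]; ring)
  obtain ⟨y0, c0, h0⟩ := mem_verts.1 hx.1
  have ha0 : Adj F x y0 := ⟨c0, subK hA h0⟩
  have key : ∀ σ : ZMod b, (σ = 1 ∨ σ = -1) → θ y0 = θ x + σ → False := by
    intro σ hσ h
    have hall : ∀ y, ReflTransGen (fun p q => (x, p, q) ∈ F) y0 y → θ y = θ x + σ := by
      intro y hy
      induction hy with
      | refl => exact h
      | @tail p q _ hr ih =>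
        have hq : Adj F x q := hP.adj_symm ⟨p, hP.rot2 hr⟩
        have h3 := hA.thA _ _ _ (rotA hA _ _ _ (int_face hx hr))
        have h4 := hne q hq
        have n1 := one_ne hb
        have n2 := two_ne hb
        have n3 := three_ne hb
        rcases hσ with rfl | rfl
        · rcases h4 with h4 | h4
          · exact h4
          · exfalso
            rcases h3 with h3 | h3 | h3
            · exact n2 (by linear_combination -h3 + ih * (-1) + h4)
            · exact n3 (by linear_combination -h3 + ih * (-1) + h4)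
            · exact n1 (by linear_combination h3 + ih * (-1) + h4)
        · rcases h4 with h4 | h4
          · exfalso
            rcases h3 with h3 | h3 | h3
            · exact n2 (by linear_combination h3 + ih - h4)
            · exact n1 (by linear_combination h3 + ih - h4)
            · exact n3 (by linear_combination -h3 + ih - h4)
          · exact h4
    have hall' : ∀ y, Adj F x y → θ y = θ x + σ := fun y hy => hall y (hF.link x y0 y ha0 hy)
    have vτ : ∀ y, Adj F x y → θ y = θ x + σ ∨ θ y = θ x + σ + 1 ∨ θ x + σ = θ y + 1 :=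
      fun y hy => Or.inl (hall' y hy)
    rcases hd y0 ha0 with h' | h'
    · exact dz' (θ x + σ) (d x) vτ vd y0 ha0 ⟨h.symm, h'.symm⟩
    · exact dz' (θ x + σ) (d x - s) vτ vd' y0 ha0 ⟨h.symm, h'.symm⟩
  rcases hne y0 ha0 with h | h
  · exact key 1 (Or.inl rfl) h
  · exact key (-1) (Or.inr rfl) h

end

theorem p6 : P6Stmt := by
  intro F D K b N C θ d hF hb hN hT x hx
  have hA := hT.toAnn
  obtain ⟨y, hy, hy'⟩ := nb_side hF hb hT hx 1 (Or.inl rfl)
  obtain ⟨z, hz, hz'⟩ := nb_side hF hb hT hx (-1) (Or.inr rfl)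
  refine ⟨⟨y, hy, hy'⟩, ⟨z, hz, by rw [hz']; ring⟩, ?_, ?_⟩
  · have := (hT.dr z (int_nb hA hx hz)).1
    omega
  · have := (hT.dr y (int_nb hA hx hy)).2
    omega

end Pool.Agent.H3.RCR.P6
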