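import Pool.Agent.H3.RCR.Util

/-!
# Project RCR, module R3: an annulus is not changed by what happens elsewhere
-/

namespace Pool.Agent.H3.RCR.R3

open Relation

/-- jumps in terms of `S` only -/
theorem jump_iff {F S : Finset Tri} (hF : Pre F) (hsub : S ⊆ F) (a b : ℕ) :
    Jump F S a b ↔ (∃ c, (a, b, c) ∈ S) ∧ ¬ ∃ d, (b, a, d) ∈ S := by
  constructor
  · rintro ⟨⟨c, hc⟩, d, hd, hd'⟩
    refine ⟨⟨c, hc⟩, ?_⟩
    rintro ⟨d', h⟩
    have := hF.uniq _ _ _ _ (hsub h) hd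
    subst this
    exact hd' h
  · rintro ⟨⟨c, hc⟩, h⟩
    obtain ⟨d, hd⟩ := hF.opp _ _ _ (hsub hc)
    exact ⟨⟨c, hc⟩, d, hd, fun h' => h ⟨d, h'⟩⟩

/-- a vertex with a face in `S` and a face not in `S` is the end of a jump -/
theorem exists_jump {F S : Finset Tri} (hF : Sph F) (hS : RotC S) (hsub : S ⊆ F) {x : ℕ}
    (hx : x ∈ verts S) (hx' : x ∈ verts (F \ S)) : ∃ y, Jump F S y x := by
  by_contra hno
  obtain ⟨p, q, hpq⟩ := mem_verts.1 hx
  obtain ⟨p', q', h'⟩ := mem_verts.1 hx'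
  obtain ⟨h1, h2⟩ := Finset.mem_sdiff.1 h'
  have key : ∀ z, ReflTransGen (fun p q => (x, p, q) ∈ F) p z → ∀ z', (x, z, z') ∈ F →
      (x, z, z') ∈ S := by
    intro z hz
    induction hz with
    | refl =>
      intro z' hz'
      have := hF.uniq _ _ _ _ hz' (hsub hpq)
      subst this
      exact hpq
    | @tail u v _ hr ih =>
      intro z' hz'
      by_contra hn
      exact hno ⟨v, ⟨u, hS _ _ _ (hS _ _ _ (ih _ hr))⟩, z', hz', hn⟩
  exact h2 (key _ (hF.link x p p' ⟨q, hsub hpq⟩ ⟨q', h1⟩) _ h1)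

theorem r3 : R3Stmt := by
  intro F F' D K b N C θ d hF hF' hA hK hadj
  have hP := hF.toPre
  have hP' := hF'.toPre
  obtain ⟨z, Z, hZc, hZs, hZd⟩ := hA.sideK
  have hKF : K ⊆ F := hZs.sub
  have hDF : D ⊆ F := hA.sideD.sub
  have hDF' : D ⊆ F' := fun t ht => hK (hA.sub ht)
  have jD : ∀ x y, Jump F' D x y ↔ Jump F D x y := fun x y => by
    rw [jump_iff hP hDF, jump_iff hP' hDF']
  have jK : ∀ x y, Jump F' K x y ↔ Jump F K x y := fun x y => by
    rw [jump_iff hP hKF, jump_iff hP' hK]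
  have hv : ∀ x, x ∈ verts K → x ∈ verts (F' \ K) → x ∈ verts (F \ K) := by
    intro x h1 h2
    obtain ⟨y, hy⟩ := exists_jump hF' hZs.rot hK h1 h2
    obtain ⟨-, e, he, he'⟩ := (jK _ _).1 hy
    exact mem_verts.2 ⟨_, _, Finset.mem_sdiff.2 ⟨he, he'⟩⟩
  have adjD : ∀ i, ∃ e, (C (i + 1), C i, e) ∈ D := by
    intro i
    have := (hA.sideD.jump (C (i + 1)) (C i)).2 ⟨-(i + 1), by
      simp only [neg_neg], by
      simp only [neg_add_rev, neg_neg]
      congr 1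
      ring⟩
    exact this.1
  have adjK : ∀ i, ∃ e, (Z (i + 1), Z i, e) ∈ K := by
    intro i
    have := (hZs.jump (Z (i + 1)) (Z i)).2 ⟨-(i + 1), by
      simp only [neg_neg], by
      simp only [neg_add_rev, neg_neg]
      congr 1
      ring⟩
    exact this.1
  have hCK : ∀ i, C i ∈ verts K := by
    intro i
    obtain ⟨e, he⟩ := adjD i
    exact mem_verts.2 ⟨_, _, hZs.rot _ _ _ (hA.sub he)⟩
  constructor
  · exact ⟨hA.cyc.three, hA.cyc.inj, fun i => by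
      obtain ⟨e, he⟩ := adjD i
      exact hP'.adj_symm ⟨e, hDF' he⟩⟩
  · exact ⟨hDF', hA.sideD.rot, fun x y => by rw [jD]; exact hA.sideD.jump x y⟩
  · exact hA.sub
  · refine ⟨z, Z, ⟨hZc.three, hZc.inj, fun i => ?_⟩, ⟨hK, hZs.rot, fun x y => ?_⟩, hZd⟩
    · obtain ⟨e, he⟩ := adjK i
      exact hP'.adj_symm ⟨e, hK he⟩
    · rw [jK]; exact hZs.jump x y
  · exact hA.thC
  · exact hA.dC
  · exact hA.thA
  · exact hA.dA
  · intro i j hij
    exact hA.chC i j (hadj _ (hCK i) _ (hCK j) hij)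
  · intro x y hx hx' hy hy' hxy
    exact hA.chK x y hx (hv x hx hx') hy (hv y hy hy') (hadj x hx y hy hxy)

end Pool.Agent.H3.RCR.R3
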