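import Pool.Agent.H65.RCR.P6
import Pool.Agent.H65.RCR.R3

/-!
# Project RCR, module P8: the local structure at an inner vertex of a tight annulus
-/

namespace Pool.Agent.H3.RCR.P8

open Relation P6

variable {F D K : Finset Tri} {b N : ℕ} {C : ZMod b → ℕ} {θ : ℕ → ZMod b} {d : ℕ → ℤ}

/-- a vertex of the annulus with `0 < d < N` is an inner vertex -/
theorem intV_of (hF : Sph F) (hA : Ann F b N C D K θ d) {y : ℕ} (hy : y ∈ verts (K \ D))
    (h1 : 1 ≤ d y) (h2 : d y + 1 ≤ N) : IntV F D K y := by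
  obtain ⟨z, Z, hZc, hZs, hZd⟩ := hA.sideK
  refine ⟨verts_mono Finset.sdiff_subset hy, fun h => ?_, fun h => ?_⟩
  · have hy' : y ∈ verts (F \ D) := verts_mono (Finset.sdiff_subset_sdiff hZs.sub subset_rfl) hy
    obtain ⟨u, hu⟩ := R3.exists_jump hF hA.sideD.rot hA.sideD.sub h hy'
    obtain ⟨i, -, hi⟩ := (hA.sideD.jump _ _).1 hu
    have := hA.dC (-(i + 1))
    rw [← hi] at this
    omega
  · obtain ⟨u, hu⟩ := R3.exists_jump hF hZs.rot hZs.sub (verts_mono Finset.sdiff_subset hy) h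
    obtain ⟨i, -, hi⟩ := (hZs.jump _ _).1 hu
    have := hZd (-(i + 1))
    rw [← hi] at this
    omega

theorem three_lt {s : Finset Tri} (hs : s.card = 2) {t u v : Tri} (ht : t ∈ s) (hu : u ∈ s)
    (hv : v ∈ s) (h1 : t ≠ u) (h2 : t ≠ v) (h3 : u ≠ v) : False := by
  have : 2 < s.card := Finset.two_lt_card_iff.2 ⟨t, u, v, ht, hu, hv, h1, h2, h3⟩
  omega

theorem p8 (h7 : P7Stmt) : P8Stmt := by
  classical
  intro F D K b N C θ d hF hb hN hT x hx
  have hP := hF.toPre
  have hA := hT.toAnn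
  have n1 := one_ne hb
  have n2 := two_ne hb
  have n3 := three_ne hb
  obtain ⟨⟨yu, hyu, hyu'⟩, ⟨yd, hyd, hyd'⟩, hx1, hx2⟩ := p6 F D K b N C θ d hF hb hN hT x hx
  have f1 : ∀ y, Adj F x y → θ y = θ x ∨ θ y = θ x + 1 ∨ θ x = θ y + 1 := by
    rintro y ⟨c, hc⟩
    exact hA.thA _ _ _ (int_face hx hc)
  have f2 : ∀ y, Adj F x y → d y = d x - 1 ∨ d y = d x ∨ d y = d x + 1 := by
    rintro y ⟨c, hc⟩
    have := abs_le.1 (hA.dA _ _ _ (int_face hx hc))
    omega
  have lv : ∀ y, Adj F x y → d y = d x → θ y = θ x + 1 ∨ θ y = θ x + -1 := by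
    intro y hy hdy
    rcases f1 y hy with h | h | h
    · exact absurd ⟨h.symm, hdy.symm⟩ (hT.dz θ d hA x y hx hy)
    · exact Or.inl h
    · exact Or.inr (by rw [h]; ring)
  have a1 : ∀ {u v : ℕ}, (x, u, v) ∈ F → Adj F x u := fun h => ⟨_, h⟩
  have a2 : ∀ {u v : ℕ}, (x, u, v) ∈ F → Adj F x v := fun h => hP.adj_symm ⟨_, hP.rot2 h⟩
  have hsucc : ∀ {y : ℕ}, Adj F x y → ∃ z, (x, y, z) ∈ F := fun h => h
  have hpred : ∀ {y : ℕ}, Adj F x y → ∃ z, (x, z, y) ∈ F := fun h => hP.pred h
  have cd : ∀ {u v : ℕ}, (x, u, v) ∈ F → |d v - d u| ≤ 1 := fun h =>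
    hA.dA _ _ _ (rotA hA _ _ _ (int_face hx h))
  have nolevel : ∀ {u v : ℕ}, (x, u, v) ∈ F → d u = d x → d v = d x → False := by
    intro u v h hu hv
    have hc := hA.thA _ _ _ (rotA hA _ _ _ (int_face hx h))
    have hui : IntV F D K u := intV_of hF hA (int_nb hA hx (a1 h)) (by omega) (by omega)
    have huv : Adj F u v := ⟨_, hP.rot _ _ _ h⟩
    have hz := hT.dz θ d hA u v hui huv
    rcases hc with hc | hc | hc
    · exact hz ⟨hc.symm, by omega⟩
    · rcases lv u (a1 h) hu with e1 | e1 <;> rcases lv v (a2 h) hv with e2 | e2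
      · exact n1 (by linear_combination -hc + e2 - e1)
      · exact n3 (by linear_combination -hc + e2 - e1)
      · exact n1 (by linear_combination hc + e1 - e2)
      · exact n1 (by linear_combination -hc + e2 - e1)
    · rcases lv u (a1 h) hu with e1 | e1 <;> rcases lv v (a2 h) hv with e2 | e2
      · exact n1 (by linear_combination -hc + e1 - e2)
      · exact n1 (by linear_combination hc - e1 + e2)
      · exact n3 (by linear_combination -hc + e1 - e2)
      · exact n1 (by linear_combination -hc + e1 - e2)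
  have closed : ∀ P : ℕ → Prop, (∃ y, Adj F x y ∧ P y) →
      (∀ u v, (x, u, v) ∈ F → P u → P v) → ∀ y, Adj F x y → P y := by
    rintro P ⟨y0, h0, hP0⟩ hst y hy
    have := hF.link x y0 y h0 hy
    induction this with
    | refl => exact hP0
    | @tail u v _ hr ih => exact hst _ _ hr (ih (a1 hr))
  -- the changes
  have hch : ∀ ε : ZMod b, (ε = 1 ∨ ε = -1) →
      (F.filter (fun t => t.1 = x ∧ ¬ (sg θ d ε x t.2.1 ↔ sg θ d ε x t.2.2))).card = 2 :=
    fun ε hε => by
      have := h7 F D K b N C θ d ε hF hb hN hT hε x hx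
      convert this
  have mch : ∀ (ε : ZMod b) {u v : ℕ}, (x, u, v) ∈ F → ¬ (sg θ d ε x u ↔ sg θ d ε x v) →
      (x, u, v) ∈ F.filter (fun t => t.1 = x ∧ ¬ (sg θ d ε x t.2.1 ↔ sg θ d ε x t.2.2)) :=
    fun ε u v h h' => Finset.mem_filter.2 ⟨h, rfl, h'⟩
  have sgU : ∀ (ε : ZMod b) {y : ℕ}, d y = d x + 1 → sg θ d ε x y := fun ε y h =>
    Or.inl (by omega)
  have sgD : ∀ (ε : ZMod b) {y : ℕ}, d y = d x - 1 → ¬ sg θ d ε x y := by
    rintro ε y h (h' | h')
    · omega
    · omega
  -- existence of the two level neighbours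
  have ex1 : ∃ p, d p = d x ∧ (∃ a, (x, a, p) ∈ F ∧ d a = d x - 1) ∧
      ∃ a, (x, p, a) ∈ F ∧ d a = d x + 1 := by
    by_contra hno
    have := closed (fun y => d y = d x - 1 ∨ (d y = d x ∧ ∃ a, (x, a, y) ∈ F ∧ d a = d x - 1))
      ⟨yd, hyd, Or.inl hyd'⟩ (by
        intro u v h hu
        have hcd := abs_le.1 (cd h)
        rcases hu with hu | ⟨hu, hu'⟩
        · rcases f2 v (a2 h) with hv | hv | hv
          · exact Or.inl hv
          · exact Or.inr ⟨hv, u, h, hu⟩
          · omega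
        · rcases f2 v (a2 h) with hv | hv | hv
          · exact Or.inl hv
          · exact (nolevel h hu hv).elim
          · exact (hno ⟨u, hu, hu', v, h, hv⟩).elim) yu hyu
    rcases this with h | h
    · omega
    · have := h.1
      omega
  have ex2 : ∃ p, d p = d x ∧ (∃ a, (x, a, p) ∈ F ∧ d a = d x + 1) ∧
      ∃ a, (x, p, a) ∈ F ∧ d a = d x - 1 := by
    by_contra hno
    have := closed (fun y => d y = d x + 1 ∨ (d y = d x ∧ ∃ a, (x, a, y) ∈ F ∧ d a = d x + 1))
      ⟨yu, hyu, Or.inl hyu'⟩ (by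
        intro u v h hu
        have hcd := abs_le.1 (cd h)
        rcases hu with hu | ⟨hu, hu'⟩
        · rcases f2 v (a2 h) with hv | hv | hv
          · omega
          · exact Or.inr ⟨hv, u, h, hu⟩
          · exact Or.inl hv
        · rcases f2 v (a2 h) with hv | hv | hv
          · exact (hno ⟨u, hu, hu', v, h, hv⟩).elim
          · exact (nolevel h hu hv).elim
          · exact Or.inl hv) yd hyd
    rcases this with h | h
    · omega
    · have := h.1
      omega
  obtain ⟨p, hp, ⟨pa, hpa, hpa'⟩, ps, hps, hps'⟩ := ex1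
  obtain ⟨q, hq, ⟨qa, hqa, hqa'⟩, qs, hqs, hqs'⟩ := ex2
  -- the changes at level neighbours of the two types
  have e1 : ∀ (ε : ZMod b) (y a a' : ℕ), (x, a, y) ∈ F → d a = d x - 1 → (x, y, a') ∈ F →
      d a' = d x + 1 → ∃ u v, (x, u, v) ∈ F ∧ ¬ sg θ d ε x u ∧ sg θ d ε x v ∧
      ((v = y ∧ d u = d x - 1) ∨ (u = y ∧ d v = d x + 1)) := by
    intro ε y a a' h1 h2 h3 h4
    by_cases hs : sg θ d ε x y
    · exact ⟨a, y, h1, sgD ε h2, hs, Or.inl ⟨rfl, h2⟩⟩
    · exact ⟨y, a', h3, hs, sgU ε h4, Or.inr ⟨rfl, h4⟩⟩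
  have e2 : ∀ (ε : ZMod b) (y a a' : ℕ), (x, a, y) ∈ F → d a = d x + 1 → (x, y, a') ∈ F →
      d a' = d x - 1 → ∃ u v, (x, u, v) ∈ F ∧ sg θ d ε x u ∧ ¬ sg θ d ε x v ∧
      ((v = y ∧ d u = d x + 1) ∨ (u = y ∧ d v = d x - 1)) := by
    intro ε y a a' h1 h2 h3 h4
    by_cases hs : sg θ d ε x y
    · exact ⟨y, a', h3, hs, sgD ε h4, Or.inr ⟨rfl, h4⟩⟩
    · exact ⟨a, y, h1, sgU ε h2, hs, Or.inl ⟨rfl, h2⟩⟩
  have all : ∀ y, Adj F x y → d y = d x → y = p ∨ y = q := by
    intro y hy hdy
    by_contra hno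
    push Not at hno
    obtain ⟨hyp, hyq⟩ := hno
    obtain ⟨a', ha'⟩ := hsucc hy
    obtain ⟨a, ha⟩ := hpred hy
    rcases f2 a (a1 ha) with h | h | h
    · rcases f2 a' (a2 ha') with h' | h' | h'
      · -- D, D
        have hlv := lv y hy hdy
        obtain ⟨ε, hε, hs⟩ : ∃ ε : ZMod b, (ε = 1 ∨ ε = -1) ∧ sg θ d ε x y := by
          rcases hlv with hl | hl
          · exact ⟨1, Or.inl rfl, Or.inr ⟨hdy.symm, hl⟩⟩
          · exact ⟨-1, Or.inr rfl, Or.inr ⟨hdy.symm, hl⟩⟩
        obtain ⟨u1, v1, m1, s1, s1', c1⟩ := e1 ε p pa ps hpa hpa' hps hps'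
        obtain ⟨u2, v2, m2, s2, s2', c2⟩ := e2 ε q qa qs hqa hqa' hqs hqs'
        refine three_lt (hch ε hε) (mch ε m1 (by tauto)) (mch ε m2 (by tauto))
          (mch ε ha (by have := sgD ε h; tauto)) ?_ ?_ ?_
        · intro e
          simp only [Prod.mk.injEq, true_and] at e
          rw [e.1] at s1
          exact s1 s2
        · intro e
          simp only [Prod.mk.injEq, true_and] at e
          rcases c1 with c1 | c1
          · exact hyp (e.2.symm.trans c1.1)
          · rw [e.1] at c1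
            rw [c1.1] at h
            omega
        · intro e
          simp only [Prod.mk.injEq, true_and] at e
          rw [e.2] at s2'
          exact s2' hs
      · exact (nolevel ha' hdy h').elim
      · -- D, U
        obtain ⟨u1, v1, m1, s1, s1', c1⟩ := e1 1 p pa ps hpa hpa' hps hps'
        obtain ⟨u2, v2, m2, s2, s2', c2⟩ := e2 1 q qa qs hqa hqa' hqs hqs'
        obtain ⟨u3, v3, m3, s3, s3', c3⟩ := e1 1 y a a' ha h ha' h'
        refine three_lt (hch 1 (Or.inl rfl)) (mch 1 m1 (by tauto)) (mch 1 m2 (by tauto))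
          (mch 1 m3 (by tauto)) ?_ ?_ ?_
        · intro e
          simp only [Prod.mk.injEq, true_and] at e
          rw [e.1] at s1
          exact s1 s2
        · intro e
          simp only [Prod.mk.injEq, true_and] at e
          obtain ⟨rfl, rfl⟩ := e
          rcases c1 with ⟨c1, c1'⟩ | ⟨c1, c1'⟩ <;> rcases c3 with ⟨c3, c3'⟩ | ⟨c3, c3'⟩
          · exact hyp (c3.symm.trans c1)
          · rw [c3] at c1'
            omega
          · rw [c3] at c1'
            omega
          · exact hyp (c3.symm.trans c1)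
        · intro e
          simp only [Prod.mk.injEq, true_and] at e
          rw [e.1] at s2
          exact s3 s2
    · exact (nolevel ha h hdy).elim
    · rcases f2 a' (a2 ha') with h' | h' | h'
      · -- U, D
        obtain ⟨u1, v1, m1, s1, s1', c1⟩ := e1 1 p pa ps hpa hpa' hps hps'
        obtain ⟨u2, v2, m2, s2, s2', c2⟩ := e2 1 q qa qs hqa hqa' hqs hqs'
        obtain ⟨u3, v3, m3, s3, s3', c3⟩ := e2 1 y a a' ha h ha' h'
        refine three_lt (hch 1 (Or.inl rfl)) (mch 1 m1 (by tauto)) (mch 1 m2 (by tauto))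
          (mch 1 m3 (by tauto)) ?_ ?_ ?_
        · intro e
          simp only [Prod.mk.injEq, true_and] at e
          rw [e.1] at s1
          exact s1 s2
        · intro e
          simp only [Prod.mk.injEq, true_and] at e
          rw [e.1] at s1
          exact s1 s3
        · intro e
          simp only [Prod.mk.injEq, true_and] at e
          obtain ⟨rfl, rfl⟩ := e
          rcases c2 with ⟨c2, c2'⟩ | ⟨c2, c2'⟩ <;> rcases c3 with ⟨c3, c3'⟩ | ⟨c3, c3'⟩
          · exact hyq (c3.symm.trans c2)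
          · rw [c3] at c2'
            omega
          · rw [c3] at c2'
            omega
          · exact hyq (c3.symm.trans c2)
      · exact (nolevel ha' hdy h').elim
      · -- U, U
        have hlv := lv y hy hdy
        obtain ⟨ε, hε, hs⟩ : ∃ ε : ZMod b, (ε = 1 ∨ ε = -1) ∧ ¬ sg θ d ε x y := by
          rcases hlv with hl | hl
          · refine ⟨-1, Or.inr rfl, ?_⟩
            rintro (h5 | ⟨-, h5⟩)
            · omega
            · exact n2 (by linear_combination h5 - hl)
          · refine ⟨1, Or.inl rfl, ?_⟩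
            rintro (h5 | ⟨-, h5⟩)
            · omega
            · exact n2 (by linear_combination hl - h5)
        obtain ⟨u1, v1, m1, s1, s1', c1⟩ := e1 ε p pa ps hpa hpa' hps hps'
        obtain ⟨u2, v2, m2, s2, s2', c2⟩ := e2 ε q qa qs hqa hqa' hqs hqs'
        refine three_lt (hch ε hε) (mch ε m1 (by tauto)) (mch ε m2 (by tauto))
          (mch ε ha (by have := sgU ε h; tauto)) ?_ ?_ ?_
        · intro e
          simp only [Prod.mk.injEq, true_and] at e
          rw [e.1] at s1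
          exact s1 s2
        · intro e
          simp only [Prod.mk.injEq, true_and] at e
          rw [e.1] at s1
          exact s1 (sgU ε h)
        · intro e
          simp only [Prod.mk.injEq, true_and] at e
          rcases c2 with c2 | c2
          · exact hyq (e.2.symm.trans c2.1)
          · rw [e.1] at c2
            rw [c2.1] at h
            omega
  have tt : ∀ y, Adj F x y → d y = d x → θ y = θ x + 1 ∨ θ x = θ y + 1 := by
    intro y hy hdy
    rcases lv y hy hdy with h | h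
    · exact Or.inl h
    · exact Or.inr (by rw [h]; ring)
  refine ⟨p, q, ?_, a1 hps, a1 hqs, hp, hq, all, tt p (a1 hps) hp, tt q (a1 hqs) hq,
    ⟨pa, hpa, hpa'⟩, ⟨ps, hps, hps'⟩, ⟨qa, hqa, hqa'⟩, ⟨qs, hqs, hqs'⟩⟩
  intro e
  subst e
  have := hP.uniq _ _ _ _ hps hqs
  subst this
  omega

end Pool.Agent.H3.RCR.P8
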