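import Pool.Agent.H3.RCR.Util

/-!
# Project RCR: the sum of an antisymmetric function of darts over a region
-/

namespace Pool.Agent.H3.RCR.A20

open Finset

/-- the sum over the left faces is the sum over the boundary darts -/
theorem sum_jump {M : Type} [AddCommGroup M] {F S : Finset Tri} (hF : Pre F) (hsub : S ⊆ F)
    (J : Finset (ℕ × ℕ)) (hJ : ∀ a b, (a, b) ∈ J ↔ Jump F S a b) (ψ : ℕ → ℕ → M)
    (hψ : ∀ a b, ψ a b = - ψ b a) : ∑ t ∈ S, ψ t.1 t.2.1 = ∑ e ∈ J, ψ e.1 e.2 := by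
  classical
  set E : Finset (ℕ × ℕ) := S.image (fun t => (t.1, t.2.1)) with hE
  have hmemE : ∀ a b, (a, b) ∈ E ↔ ∃ x, (a, b, x) ∈ S := by
    intro a b
    simp only [hE, mem_image, Prod.mk.injEq]
    constructor
    · rintro ⟨⟨a', b', x⟩, h, h1, h2⟩
      simp only at h1 h2
      subst h1; subst h2
      exact ⟨x, h⟩
    · rintro ⟨x, h⟩
      exact ⟨(a, b, x), h, rfl, rfl⟩
  have hinj : ∀ s ∈ S, ∀ t ∈ S, (s.1, s.2.1) = (t.1, t.2.1) → s = t := by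
    rintro ⟨a, b, x⟩ hs ⟨a', b', x'⟩ ht h
    simp only [Prod.mk.injEq] at h
    obtain ⟨rfl, rfl⟩ := h
    rw [hF.uniq _ _ _ _ (hsub hs) (hsub ht)]
  have h1 : ∑ t ∈ S, ψ t.1 t.2.1 = ∑ e ∈ E, ψ e.1 e.2 := by
    rw [hE, sum_image]
    intro s hs t ht h
    exact hinj s hs t ht h
  rw [h1]
  -- split into inner darts and jumps
  rw [← sum_filter_add_sum_filter_not E (fun e => (e.2, e.1) ∈ E)]
  have h2 : ∑ e ∈ E with (e.2, e.1) ∈ E, ψ e.1 e.2 = 0 := by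
    refine sum_involution (fun e _ => (e.2, e.1)) ?_ ?_ ?_ ?_
    · intro e _
      simp only
      rw [hψ e.1 e.2]
      simp
    · rintro ⟨a, b⟩ he _ h
      simp only [Prod.mk.injEq] at h
      obtain ⟨x, hx⟩ := (hmemE _ _).1 (mem_filter.1 he).1
      exact hF.ne _ _ _ (hsub hx) h.2
    · rintro ⟨a, b⟩ he
      have := mem_filter.1 he
      exact mem_filter.2 ⟨this.2, this.1⟩
    · rintro ⟨a, b⟩ he
      rfl
  have h3 : (E.filter fun e => ¬ (e.2, e.1) ∈ E) = J := by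
    ext ⟨a, b⟩
    rw [hJ]
    constructor
    · intro hh
      obtain ⟨he, hne⟩ := mem_filter.1 hh
      obtain ⟨x, hx⟩ := (hmemE _ _).1 he
      obtain ⟨y, hy⟩ := hF.opp _ _ _ (hsub hx)
      exact ⟨⟨x, hx⟩, y, hy, fun h => hne ((hmemE _ _).2 ⟨y, h⟩)⟩
    · rintro ⟨⟨x, hx⟩, y, hy, hy'⟩
      refine mem_filter.2 ⟨(hmemE _ _).2 ⟨x, hx⟩, fun h => ?_⟩
      obtain ⟨y', h'⟩ := (hmemE _ _).1 h
      have := hF.uniq _ _ _ _ (hsub h') hy
      subst this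
      exact hy' h'
  rw [h2, zero_add, h3]

/-- sums over a rotation-closed set -/
theorem sum_rot {M : Type} [AddCommGroup M] {S : Finset Tri} (hS : RotC S) (g : Tri → M) :
    ∑ t ∈ S, g (t.2.1, t.2.2, t.1) = ∑ t ∈ S, g t := by
  refine Finset.sum_nbij' (fun t => (t.2.1, t.2.2, t.1)) (fun t => (t.2.2, t.1, t.2.1)) ?_ ?_ ?_ ?_ ?_
  · rintro ⟨a, b, c⟩ h
    exact hS _ _ _ h
  · rintro ⟨a, b, c⟩ h
    exact hS _ _ _ (hS _ _ _ h)
  · rintro ⟨a, b, c⟩ _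
    rfl
  · rintro ⟨a, b, c⟩ _
    rfl
  · rintro ⟨a, b, c⟩ _
    rfl

/-- three times the sum of a function of darts over the left faces is the sum of its curl -/
theorem three_sum {S : Finset Tri} (hS : RotC S) (ψ : ℕ → ℕ → ℤ) :
    3 * ∑ t ∈ S, ψ t.1 t.2.1 = ∑ t ∈ S, (ψ t.1 t.2.1 + ψ t.2.1 t.2.2 + ψ t.2.2 t.1) := by
  have e1 := sum_rot hS (fun t => ψ t.1 t.2.1)
  have e2 := sum_rot hS (fun t => ψ t.2.1 t.2.2)
  simp only at e1 e2
  rw [sum_add_distrib, sum_add_distrib, e2, e1]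
  ring

end Pool.Agent.H3.RCR.A20
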